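import Pool.Agent.K1H22.DF.Stm

/-! Paths avoiding `S` and the diameter of the induced graph. -/

set_option autoImplicit false

namespace Pool.Agent.K1H22.DF

variable {V : Type*}

lemma reach_of_walk (G : SimpleGraph V) (S : Finset V) {u v : {x // x ∈ {x | x ∉ S}}}
    (p : (G.induce {x | x ∉ S}).Walk u v) : ∀ j, p.length ≤ j → Reach G S j u.1 v.1 := by
  induction p with
  | nil =>
    intro j _
    cases j with
    | zero => rfl
    | succ j => exact Or.inl rfl
  | @cons a b c h p ih =>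
    intro j hj
    rw [SimpleGraph.Walk.length_cons] at hj
    cases j with
    | zero => omega
    | succ j =>
      refine Or.inr ⟨b.1, b.2, ?_, ih j (by omega)⟩
      simpa using h

lemma walk_of_reach (G : SimpleGraph V) (S : Finset V) : ∀ (j : ℕ) (u v : V) (hu : u ∉ S)
    (hv : v ∉ S), Reach G S j u v →
    ∃ p : (G.induce {x | x ∉ S}).Walk ⟨u, hu⟩ ⟨v, hv⟩, p.length ≤ j := by
  intro j
  induction j with
  | zero =>
    intro u v hu hv h
    obtain rfl : u = v := h
    exact ⟨SimpleGraph.Walk.nil, by simp⟩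
  | succ j ih =>
    intro u v hu hv h
    rcases h with h | ⟨x, hx, ha, h⟩
    · subst h
      exact ⟨SimpleGraph.Walk.nil, by simp⟩
    · obtain ⟨p, hp⟩ := ih x v hx hv h
      have hadj : (G.induce {x | x ∉ S}).Adj ⟨u, hu⟩ ⟨x, hx⟩ := by
        simpa using ha
      exact ⟨SimpleGraph.Walk.cons hadj p, by simpa using hp⟩

theorem ediam_iff (G : SimpleGraph V) (S : Finset V) (d : ℕ) :
    (G.induce {x | x ∉ S}).ediam ≤ (d : ℕ∞) ↔
      ∀ u v : V, u ∉ S → v ∉ S → Reach G S d u v := by
  rw [SimpleGraph.ediam_le_iff]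
  constructor
  · intro h u v hu hv
    have h1 := h ⟨u, hu⟩ ⟨v, hv⟩
    obtain ⟨p, hp⟩ := SimpleGraph.exists_walk_of_edist_ne_top
      (ne_top_of_le_ne_top (ENat.coe_ne_top d) h1)
    refine reach_of_walk G S p d ?_
    rw [← hp] at h1
    exact_mod_cast h1
  · intro h u v
    obtain ⟨p, hp⟩ := walk_of_reach G S d u.1 v.1 u.2 v.2 (h u.1 v.1 u.2 v.2)
    refine le_trans (SimpleGraph.edist_le p) ?_
    exact_mod_cast hp

end Pool.Agent.K1H22.DF
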