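import Pool.Agent.K1H22.DF.Eqv

/-! From the bounds for all large `n` to the limit. -/

set_option autoImplicit false

namespace Pool.Agent.K1H22.DF

open Filter Topology

theorem lim_of (d k : ℕ) (c : ℝ)
    (hU : ∃ C : ℝ, ∀ n : ℕ, 2 * k ≤ n → ∃ G : SimpleGraph (Fin n), AdmR d k G ∧
      (G.edgeSet.ncard : ℝ) ≤ c * n + C)
    (hL : ∀ ε : ℝ, 0 < ε → ∃ N : ℕ, ∀ n : ℕ, N ≤ n → ∀ G : SimpleGraph (Fin n), AdmR d k G →
      (c - ε) * n ≤ (G.edgeSet.ncard : ℝ))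
    (T : ∀ n : ℕ, SimpleGraph (Fin n) → Prop) (hT : ∀ n (G : SimpleGraph (Fin n)),
      T n G ↔ AdmR d k G) :
    Tendsto (fun n : ℕ => (((sInf {m : ℕ | ∃ G : SimpleGraph (Fin n), T n G ∧
      G.edgeSet.ncard = m} : ℕ) : ℝ) - (k : ℝ) * n / 2) / n) atTop (𝓝 (c - (k : ℝ) / 2)) := by
  obtain ⟨C, hC⟩ := hU
  rw [Metric.tendsto_atTop]
  intro ε hε
  obtain ⟨N, hN⟩ := hL (ε / 2) (by positivity)
  obtain ⟨M, hM⟩ := exists_nat_gt (2 * |C| / ε)
  refine ⟨max (max N (2 * k)) (M + 1), fun n hn => ?_⟩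
  have hn1 : N ≤ n := le_trans (le_trans (le_max_left _ _) (le_max_left _ _)) hn
  have hn2 : 2 * k ≤ n := le_trans (le_trans (le_max_right _ _) (le_max_left _ _)) hn
  have hn3 : M + 1 ≤ n := le_trans (le_max_right _ _) hn
  have hn0 : (0 : ℝ) < n := by
    have : 0 < n := by omega
    exact_mod_cast this
  have hnM : (M : ℝ) ≤ n := by
    have : M ≤ n := by omega
    exact_mod_cast this
  set A : Set ℕ := {m : ℕ | ∃ G : SimpleGraph (Fin n), T n G ∧ G.edgeSet.ncard = m} with hA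
  obtain ⟨G1, hG1, hG1'⟩ := hC n hn2
  have hne : A.Nonempty := ⟨_, G1, (hT n G1).2 hG1, rfl⟩
  have hup : ((sInf A : ℕ) : ℝ) ≤ c * n + C := by
    have h1 : sInf A ≤ G1.edgeSet.ncard := Nat.sInf_le ⟨G1, (hT n G1).2 hG1, rfl⟩
    have h2 : ((sInf A : ℕ) : ℝ) ≤ (G1.edgeSet.ncard : ℝ) := by exact_mod_cast h1
    linarith
  have hlo : (c - ε / 2) * n ≤ ((sInf A : ℕ) : ℝ) := by
    obtain ⟨G0, hG0, hG0'⟩ := Nat.sInf_mem hne
    have := hN n hn1 G0 ((hT n G0).1 hG0)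
    rwa [hG0'] at this
  have hCn : C < ε * n := by
    have h1 : 2 * |C| / ε < n := lt_of_lt_of_le hM hnM
    rw [div_lt_iff₀ hε] at h1
    have h2 := le_abs_self C
    have h3 := abs_nonneg C
    nlinarith
  rw [Real.dist_eq]
  have key : (((sInf A : ℕ) : ℝ) - (k : ℝ) * n / 2) / n - (c - (k : ℝ) / 2) =
      (((sInf A : ℕ) : ℝ) - c * n) / n := by
    field_simp
    ring
  rw [key, abs_lt]
  constructor
  · rw [lt_div_iff₀ hn0]
    nlinarith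
  · rw [div_lt_iff₀ hn0]
    nlinarith

end Pool.Agent.K1H22.DF
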