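import Pool.Agent.K1H22.DF.Lim

/-! The two limits from the bounds. -/

set_option autoImplicit false

namespace Pool.Agent.K1H22.DF

open Filter Topology

theorem main3 (hU : S_U3) (hL : S_L3) (k : ℕ) (hk : 1 ≤ k)
    (T : ∀ n : ℕ, SimpleGraph (Fin n) → Prop) (hT : ∀ n (G : SimpleGraph (Fin n)),
      T n G ↔ AdmR 3 k G) :
    Tendsto (fun n : ℕ => (((sInf {m : ℕ | ∃ G : SimpleGraph (Fin n), T n G ∧
      G.edgeSet.ncard = m} : ℕ) : ℝ) - (k : ℝ) * n / 2) / n) atTop (𝓝 ((k : ℝ) / 2)) := by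
  have := lim_of 3 k (k : ℝ) ⟨0, fun n hn => by simpa using hU k n hk hn⟩ (hL k hk) T hT
  rwa [show (k : ℝ) - (k : ℝ) / 2 = (k : ℝ) / 2 by ring] at this

theorem main4 (hU : S_U4) (hL : S_L4) (k : ℕ) (hk : 1 ≤ k)
    (T : ∀ n : ℕ, SimpleGraph (Fin n) → Prop) (hT : ∀ n (G : SimpleGraph (Fin n)),
      T n G ↔ AdmR 4 k G) :
    Tendsto (fun n : ℕ => (((sInf {m : ℕ | ∃ G : SimpleGraph (Fin n), T n G ∧
      G.edgeSet.ncard = m} : ℕ) : ℝ) - (k : ℝ) * n / 2) / n) atTop (𝓝 (1 / 2)) := by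
  have := lim_of 4 k (((k : ℝ) + 1) / 2) (hU k hk) (hL k hk) T hT
  rwa [show ((k : ℝ) + 1) / 2 - (k : ℝ) / 2 = 1 / 2 by ring] at this

end Pool.Agent.K1H22.DF
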