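import Pool.Agent.K1H22.DF.Stm5

/-! Interface of project DF6 (MP_1438b7_co), diameter 6: the limit `1 / (k + 1)`. -/

set_option autoImplicit false

namespace Pool.Agent.K1H22.DF

/-- lower bound for `d = 6` -/
def S_L6 : Prop := ∀ k : ℕ, 1 ≤ k → ∀ ε : ℝ, 0 < ε → ∃ N : ℕ, ∀ n : ℕ, N ≤ n →
  ∀ G : SimpleGraph (Fin n), AdmR 6 k G →
    ((k : ℝ) / 2 + 1 / (k + 1) - ε) * n ≤ (G.edgeSet.ncard : ℝ)

section fin

variable {V : Type*} [Fintype V] [DecidableEq V] (G : SimpleGraph V) [DecidableRel G.Adj]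

/-- the vertices which are no hubs and have a hub neighbour -/
def YY (D : ℕ) : Finset V := Finset.univ.filter (fun v => v ∉ hub G D ∧ hn G D v ≠ ∅)

/-- the vertices which are no hubs and have no hub neighbour -/
def ZZ (D : ℕ) : Finset V := Finset.univ.filter (fun v => v ∉ hub G D ∧ hn G D v = ∅)

/-- the deep vertices: no hub within distance two -/
def Z0 (D : ℕ) : Finset V := (ZZ G D).filter (fun v => G.neighborFinset v ⊆ ZZ G D)

/-- the exceptional vertices at the hub `h`: the only neighbour in `YY` has degree `k` and the only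
hub neighbour `h` -/
def X6 (D k : ℕ) (h : V) : Finset V := (ZZ G D).filter (fun x => ∃ p ∈ YY G D, G.Adj x p ∧
  hn G D p = {h} ∧ G.degree p = k ∧ ∀ q ∈ YY G D, G.Adj x q → q = p)

end fin

/-- if there are many deep vertices, every vertex which is no hub has `k` neighbours which are not
deep -/
def S_DEEP6 : Prop := ∀ k D : ℕ, 1 ≤ k → ∃ C : ℕ, ∀ (V : Type) [Fintype V] [DecidableEq V]
  (G : SimpleGraph V) [DecidableRel G.Adj], AdmR 6 k G → C ≤ (Z0 G D).card →
  ∀ v, v ∉ hub G D → k ≤ ((G.neighborFinset v).filter (fun x => x ∉ Z0 G D)).card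

/-- few exceptional vertices at every hub -/
def S_EXC6 : Prop := ∀ k D : ℕ, 1 ≤ k → ∃ C : ℕ, ∀ (V : Type) [Fintype V] [DecidableEq V]
  (G : SimpleGraph V) [DecidableRel G.Adj], AdmR 6 k G → ∀ h : V,
  (X6 G D k h).card ≤ C ∧ (X6 G D k h).card ≤ k * G.degree h

/-- the discharging -/
def S_DISCH6 : Prop := ∀ (V : Type) [Fintype V] [DecidableEq V] (G : SimpleGraph V)
  [DecidableRel G.Adj] (D k c : ℕ), 1 ≤ k → (∀ v, k ≤ G.degree v) →
  ((Z0 G D).card ≤ c ∨
    ∀ v, v ∉ hub G D → k ≤ ((G.neighborFinset v).filter (fun x => x ∉ Z0 G D)).card) →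
  (k * (k + 1) + 2) * (Finset.univ.filter (fun v => v ∉ hub G D)).card ≤
    (k + 1) * (∑ v, G.degree v) + 2 * (((hub G D).biUnion (X6 G D k)).card + c)

/-! ### the construction -/

/-- the label of a vertex -/
def lab (k v : ℕ) : ℕ := if v < k then v else (v - k) % k

/-- the row of a vertex `v ≥ k` -/
def row (k v : ℕ) : ℕ := ((v - k) / k) % (k + 1)

/-- the component of a vertex `v ≥ k` -/
def cpt (k v : ℕ) : ℕ := ((v - k) / k) / (k + 1)

/-- the relation between a hub `u < k` and a vertex `v ≥ k` -/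
def hadj (k n u v : ℕ) : Prop := u < k ∧ k ≤ v ∧
  ((n - k) / (k * (k + 1)) ≤ cpt k v ∨ (lab k v = u ∧ (row k v = k ∨ row k v = lab k v)))

/-- the relation between two vertices `u, v ≥ k` -/
def cadj (k n u v : ℕ) : Prop := k ≤ u ∧ k ≤ v ∧ cpt k u = cpt k v ∧
  cpt k u < (n - k) / (k * (k + 1)) ∧
  ((row k u = row k v ∧ row k u < k ∧ lab k u ≠ lab k v) ∨
   (lab k u = lab k v ∧ row k u = k ∧ row k v < k ∧ row k v ≠ lab k v))

/-- The graph: the hubs `0, …, k - 1` are mutually adjacent; every component consists of `k (k + 1)`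
vertices with a label `< k` and a row `≤ k`; the rows `< k` are cliques; the vertex of label `a` in
the last row `k` is adjacent to the vertices of label `a` in the rows other than `a` and `k`, and to
the hub `a`; the vertex of label `a` in the row `a` is adjacent to the hub `a`. The vertices of the
last, incomplete component are adjacent to all the hubs. -/
def gU6 (k n : ℕ) : SimpleGraph (Fin n) :=
  SimpleGraph.fromRel (fun u v => (u.1 < k ∧ v.1 < k) ∨ hadj k n u.1 v.1 ∨ cadj k n u.1 v.1)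

/-- the graph has the property -/
def S_U6A : Prop := ∀ k n : ℕ, 1 ≤ k → 2 * k ≤ n → AdmR 6 k (gU6 k n)

/-- the number of edges -/
def S_U6B : Prop := ∀ k : ℕ, 1 ≤ k → ∃ C : ℝ, ∀ n : ℕ, 2 * k ≤ n →
  ((gU6 k n).edgeSet.ncard : ℝ) ≤ ((k : ℝ) / 2 + 1 / (k + 1)) * n + C

end Pool.Agent.K1H22.DF
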