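import Pool.Agent.K1H22.DF.Lim
import Pool.Agent.K1H22.DF.Stm6

/-! The limit for diameter six from the bounds. -/

set_option autoImplicit false

namespace Pool.Agent.K1H22.DF

open Filter Topology

theorem main6 (hA : S_U6A) (hB : S_U6B) (hL : S_L6) (k : ℕ) (hk : 1 ≤ k)
    (T : ∀ n : ℕ, SimpleGraph (Fin n) → Prop) (hT : ∀ n (G : SimpleGraph (Fin n)),
      T n G ↔ AdmR 6 k G) :
    Tendsto (fun n : ℕ => (((sInf {m : ℕ | ∃ G : SimpleGraph (Fin n), T n G ∧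
      G.edgeSet.ncard = m} : ℕ) : ℝ) - (k : ℝ) * n / 2) / n) atTop
      (𝓝 (1 / ((k : ℝ) + 1))) := by
  obtain ⟨C, hC⟩ := hB k hk
  have := lim_of 6 k ((k : ℝ) / 2 + 1 / (k + 1))
    ⟨C, fun n hn => ⟨gU6 k n, hA k n hk hn, hC n hn⟩⟩ (hL k hk) T hT
  rwa [show (k : ℝ) / 2 + 1 / (k + 1) - (k : ℝ) / 2 = 1 / ((k : ℝ) + 1) by ring] at this

end Pool.Agent.K1H22.DF
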