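import Mathlib

/-! Interface of project DF (MP_1438b7_co): vertex-fault-tolerant graphs of diameter 3 and 4. -/

set_option autoImplicit false

namespace Pool.Agent.K1H22.DF

variable {V : Type*}

/-- `Reach G S j u v`: there is a path with at most `j` edges from `u` to `v` in `G` all whose
vertices after `u` are outside `S`. -/
def Reach (G : SimpleGraph V) (S : Finset V) : ℕ → V → V → Prop
  | 0, u, v => u = v
  | (j + 1), u, v => u = v ∨ ∃ x, x ∉ S ∧ G.Adj u x ∧ Reach G S j x v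

/-- after the deletion of any `k - 1` vertices the distances are at most `d` -/
def AdmR (d k : ℕ) (G : SimpleGraph V) : Prop :=
  ∀ S : Finset V, S.card = k - 1 → ∀ u v : V, u ∉ S → v ∉ S → Reach G S d u v

/-- upper bound for `d = 3` (the complete bipartite graph) -/
def S_U3 : Prop := ∀ k n : ℕ, 1 ≤ k → 2 * k ≤ n →
  ∃ G : SimpleGraph (Fin n), AdmR 3 k G ∧ (G.edgeSet.ncard : ℝ) ≤ k * n

/-- upper bound for `d = 4` (cliques of `k` vertices attached to `k` hubs) -/
def S_U4 : Prop := ∀ k : ℕ, 1 ≤ k → ∃ C : ℝ, ∀ n : ℕ, 2 * k ≤ n →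
  ∃ G : SimpleGraph (Fin n), AdmR 4 k G ∧ (G.edgeSet.ncard : ℝ) ≤ (k + 1) / 2 * n + C

/-- lower bound for `d = 3` -/
def S_L3 : Prop := ∀ k : ℕ, 1 ≤ k → ∀ ε : ℝ, 0 < ε → ∃ N : ℕ, ∀ n : ℕ, N ≤ n →
  ∀ G : SimpleGraph (Fin n), AdmR 3 k G → (k - ε) * n ≤ (G.edgeSet.ncard : ℝ)

/-- lower bound for `d = 4` -/
def S_L4 : Prop := ∀ k : ℕ, 1 ≤ k → ∀ ε : ℝ, 0 < ε → ∃ N : ℕ, ∀ n : ℕ, N ≤ n →
  ∀ G : SimpleGraph (Fin n), AdmR 4 k G → ((k + 1) / 2 - ε) * n ≤ (G.edgeSet.ncard : ℝ)

/-! ### finer pieces for the lower bounds -/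

section fin

variable [Fintype V] [DecidableEq V] (G : SimpleGraph V) [DecidableRel G.Adj]

/-- the hubs: vertices of degree at least `D` -/
def hub (D : ℕ) : Finset V := Finset.univ.filter (fun v => D ≤ G.degree v)

/-- the hub neighbours of `v` -/
def hn (D : ℕ) (v : V) : Finset V := (G.neighborFinset v).filter (fun x => x ∈ hub G D)

/-- the ball of radius `j` in the graph of the other vertices -/
def ball (D : ℕ) (u : V) : ℕ → Finset V
  | 0 => {u}
  | (j + 1) => ball D u j ∪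
      (ball D u j).biUnion (fun x => (G.neighborFinset x).filter (fun y => y ∉ hub G D))

end fin

/-- balls are small -/
def S_BALL : Prop := ∀ (V : Type) [Fintype V] [DecidableEq V] (G : SimpleGraph V)
  [DecidableRel G.Adj] (D : ℕ) (u : V) (j : ℕ), u ∉ hub G D →
  (∀ x ∈ ball G D u j, x ∉ hub G D) ∧ (ball G D u j).card ≤ (1 + D) ^ j

/-- few vertices have fewer than `k` hub neighbours (`d = 3`) -/
def S_FEW3 : Prop := ∀ k D : ℕ, 1 ≤ k → ∃ C : ℕ, ∀ (V : Type) [Fintype V] [DecidableEq V]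
  (G : SimpleGraph V) [DecidableRel G.Adj], AdmR 3 k G →
  (Finset.univ.filter (fun v => v ∉ hub G D ∧ (hn G D v).card < k)).card ≤ C

/-- `d = 4`: if many vertices have no hub neighbour, every vertex which is not a hub has at least
`k` neighbours which are hubs or have a hub neighbour -/
def S_DEG4 : Prop := ∀ k D : ℕ, 1 ≤ k → ∃ C : ℕ, ∀ (V : Type) [Fintype V] [DecidableEq V]
  (G : SimpleGraph V) [DecidableRel G.Adj], AdmR 4 k G →
  C ≤ (Finset.univ.filter (fun v => v ∉ hub G D ∧ hn G D v = ∅)).card →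
  ∀ v, v ∉ hub G D →
    k ≤ ((G.neighborFinset v).filter (fun x => ¬ (x ∉ hub G D ∧ hn G D x = ∅))).card

/-- the minimum degree is at least `k` -/
def S_MIN : Prop := ∀ (V : Type) [Fintype V] [DecidableEq V] (G : SimpleGraph V)
  [DecidableRel G.Adj] (d k : ℕ), 1 ≤ k → k + 1 ≤ Fintype.card V → AdmR d k G →
  ∀ v, k ≤ G.degree v

end Pool.Agent.K1H22.DF
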