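import Pool.Agent.K1H22.DF.Stm

/-! Interface of project DF (MP_1438b7_co), diameter 5: the lower bound `(k + 1) / 2`. -/

set_option autoImplicit false

namespace Pool.Agent.K1H22.DF

/-- lower bound for `d = 5` -/
def S_L5 : Prop := ∀ k : ℕ, 1 ≤ k → ∀ ε : ℝ, 0 < ε → ∃ N : ℕ, ∀ n : ℕ, N ≤ n →
  ∀ G : SimpleGraph (Fin n), AdmR 5 k G → ((k + 1) / 2 - ε) * n ≤ (G.edgeSet.ncard : ℝ)

section fin

variable {V : Type*} [Fintype V] [DecidableEq V] (G : SimpleGraph V) [DecidableRel G.Adj]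

/-- the hubs at distance one or two from `v` (the vertex between being no hub) -/
def S2 (D : ℕ) (v : V) : Finset V :=
  hn G D v ∪ ((G.neighborFinset v).filter (fun c => c ∉ hub G D)).biUnion (hn G D)

/-- the exceptional vertices -/
def bad (D k : ℕ) : Finset V := Finset.univ.filter (fun v => v ∉ hub G D ∧
  ((hn G D v = ∅ ∧ (S2 G D v).card < k) ∨ (hn G D v ≠ ∅ ∧ (S2 G D v).card + (hn G D v).card ≤ k)))

end fin

/-- a route of length five from `u` to a far vertex `w` when the hubs near `u` are deleted -/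
def S_ROUTE5 : Prop := ∀ (V : Type) [Fintype V] [DecidableEq V] (G : SimpleGraph V)
  [DecidableRel G.Adj] (D k : ℕ), k + 1 ≤ Fintype.card V → AdmR 5 k G →
  ∀ (S : Finset V) (u w : V), S ⊆ hub G D → S.card ≤ k - 1 → u ∉ hub G D → w ∉ hub G D →
    w ∉ ball G D u 5 → S2 G D u ⊆ S → hn G D w ⊆ S →
    ∃ x ∈ (ball G D u 2).biUnion (hn G D), x ∉ S ∧ x ∈ S2 G D w

/-- a weak form of the set pair inequality -/
def S_PAIR : Prop := ∀ a b c : ℕ, ∃ F : ℕ, ∀ (α ι : Type) [DecidableEq α] [DecidableEq ι]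
  (X : Finset ι) (A B : ι → Finset α) (N : ι → Finset ι),
  (∀ x ∈ X, (A x).card ≤ a) → (∀ x ∈ X, (B x).card ≤ b) → (∀ x ∈ X, (N x).card ≤ c) →
  (∀ x ∈ X, Disjoint (A x) (B x)) →
  (∀ x ∈ X, ∀ y ∈ X, y ∉ N x → ¬ Disjoint (A y) (B x)) → X.card ≤ F

/-- few exceptional vertices at every hub -/
def S_WEAK5 : Prop := ∀ k D : ℕ, 1 ≤ k → ∃ C : ℕ, ∀ (V : Type) [Fintype V] [DecidableEq V]
  (G : SimpleGraph V) [DecidableRel G.Adj], k + 1 ≤ Fintype.card V → AdmR 5 k G →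
  (Finset.univ.filter (fun v => v ∉ hub G D ∧ hn G D v = ∅ ∧ (S2 G D v).card < k)).card ≤ C ∧
  ∀ h, (Finset.univ.filter (fun v => v ∉ hub G D ∧ h ∈ hn G D v ∧
    (S2 G D v).card + (hn G D v).card ≤ k)).card ≤ C

/-- the choice of the threshold -/
def S_SCALE : Prop := ∀ (C : ℕ → ℕ) (D0 : ℕ) (K ε : ℝ), 0 < ε → ∃ D1 : ℕ,
  ∀ (V : Type) [Fintype V] [DecidableEq V] (G : SimpleGraph V) [DecidableRel G.Adj],
  ((∑ v, G.degree v : ℕ) : ℝ) ≤ K * Fintype.card V → ∃ D, D0 ≤ D ∧ D ≤ D1 ∧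
    ((∑ h ∈ hub G D, min (G.degree h) (C D) : ℕ) : ℝ) ≤ ε * Fintype.card V

/-- the discharging -/
def S_DISCH : Prop := ∀ (V : Type) [Fintype V] [DecidableEq V] (G : SimpleGraph V)
  [DecidableRel G.Adj] (D k : ℕ), 1 ≤ k → (∀ v, k ≤ G.degree v) →
  (k + 1) * (Finset.univ.filter (fun v => v ∉ hub G D)).card ≤
    (∑ v, G.degree v) + (bad G D k).card

end Pool.Agent.K1H22.DF
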